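import Pool.Agent.H620R2.Gauge.X
import Pool.Agent.W900.CH.Comb

/-!
# Few changes do not help decision trees to predict parities

The agreement of shallow decision trees with parities of disjoint large blocks is distributed like
fair coins; few changes of the random bits change this only a little.
-/

set_option autoImplicit false

namespace Pool.Agent.TH771.EA

open Finset Pool.Agent.NPC Pool.Agent.H620R2.Gauge H568R2

section

open Pool.Agent.H676

variable {I κ : Type*} [Fintype I] [DecidableEq I] [Fintype κ] [DecidableEq κ]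

omit [Fintype κ] in
theorem prod_zero (B : κ → Finset I) (hB : ∀ x x', x ≠ x' → Disjoint (B x) (B x'))
    (g : κ → (I → Bool) → Bool) (t K : ℕ) (hg : ∀ x, DTr t (g x))
    (hs : ∀ x, K * t < (B x).card) (S : Finset κ) (hSK : S.card ≤ K) (hne : S ≠ ∅) :
    Ex unif (fun a : I → Bool => ∏ x ∈ S, (sgb (g x a) * sgb (par (B x) a))) = 0 := by
  let U : Finset I := S.biUnion B
  have hdis : (S : Set κ).PairwiseDisjoint B := fun x _ y _ hxy => hB x y hxy
  have e3 : ∀ a : I → Bool, ∏ x ∈ S, (sgb (g x a) * sgb (par (B x) a)) =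
      (∏ x ∈ S, sgb (g x a)) * ch (fun i => decide (i ∈ U)) a := by
    intro a
    have e4 : ch (fun i => decide (i ∈ U)) a = ∏ i ∈ U, sgb (a i) := by
      unfold ch
      rw [← Finset.prod_subset (Finset.subset_univ U)]
      · refine Finset.prod_congr rfl fun i hi => ?_
        simp [hi, sgb]
      · intro i _ hi
        simp [hi]
    rw [e4, Finset.prod_biUnion hdis, Finset.prod_mul_distrib,
      Finset.prod_congr rfl fun x _ => sgb_par (B x) a]
  rw [funext e3, Ex_unif]
  have hd : Deg (S.card * t) (fun a => ∏ x ∈ S, sgb (g x a)) :=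
    deg_prod S (fun x a => sgb (g x a)) t fun x _ => deg_sgb (hg x)
  have hw : S.card * t < wt (fun i => decide (i ∈ U)) := by
    obtain ⟨x, hx⟩ := Finset.nonempty_iff_ne_empty.2 hne
    have h1 : (univ.filter (fun i => decide (i ∈ U) = true)) = U := by
      ext i; simp
    unfold wt
    rw [h1]
    have h2 : B x ⊆ U := Finset.subset_biUnion_of_mem B hx
    have h3 := Finset.card_le_card h2
    have h4 := hs x
    have h5 : S.card * t ≤ K * t := Nat.mul_le_mul_right t hSK
    omega
  have h0 := hd _ hw
  unfold co at h0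
  exact h0

/-- The exponential moment of the agreement. -/
theorem moment (B : κ → Finset I) (hB : ∀ x x', x ≠ x' → Disjoint (B x) (B x'))
    (g : κ → (I → Bool) → Bool) (t : ℕ) (hg : ∀ x, DTr t (g x))
    (hs : ∀ x, Fintype.card κ * t < (B x).card) (c d : ℝ) :
    Ex unif (fun a : I → Bool => ∏ x : κ, (d * (sgb (g x a) * sgb (par (B x) a)) + c)) =
      c ^ Fintype.card κ := by
  have e1 : ∀ a : I → Bool, ∏ x : κ, (d * (sgb (g x a) * sgb (par (B x) a)) + c) =
      ∑ S ∈ (univ : Finset κ).powerset, (d ^ S.card * c ^ (univ \ S).card) *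
        ∏ x ∈ S, (sgb (g x a) * sgb (par (B x) a)) := by
    intro a
    rw [Finset.prod_add]
    refine Finset.sum_congr rfl fun S _ => ?_
    rw [Finset.prod_mul_distrib, Finset.prod_const, Finset.prod_const]
    ring
  rw [funext e1, Ex_sum]
  rw [Finset.sum_eq_single ∅]
  · simp only [Finset.prod_empty, Finset.card_empty, pow_zero, one_mul, mul_one,
      Finset.sdiff_empty, Finset.card_univ]
    exact Ex_const (by unfold unif; rw [Fintype.sum_bool]; norm_num) _
  · intro S _ hne
    rw [Ex_smul, prod_zero B hB g t (Fintype.card κ) hg hs S (Finset.card_le_univ S) hne, mul_zero]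
  · intro h
    exact absurd (Finset.empty_mem_powerset _) h

/-- the number of the correct predictions -/
def cnt (B : κ → Finset I) (g : κ → (I → Bool) → Bool) (a : I → Bool) : ℕ :=
  (univ.filter fun x => g x a = par (B x) a).card

theorem exp_cnt (B : κ → Finset I) (g : κ → (I → Bool) → Bool) (a : I → Bool) (l : ℝ) :
    ∏ x : κ, (Real.sinh l * (sgb (g x a) * sgb (par (B x) a)) + Real.cosh l) =
      Real.exp (l * (2 * cnt B g a - Fintype.card κ)) := by
  have h1 : ∀ x : κ, Real.sinh l * (sgb (g x a) * sgb (par (B x) a)) + Real.cosh l =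
      Real.exp (l * (2 * (if g x a = par (B x) a then (1 : ℝ) else 0) - 1)) := by
    intro x
    have h2 : sgb (g x a) * sgb (par (B x) a) =
        2 * (if g x a = par (B x) a then (1 : ℝ) else 0) - 1 := by
      rw [ind_eq]
      ring
    rw [h2]
    split_ifs
    · have := Real.sinh_add_cosh l
      rw [show l * (2 * 1 - 1) = l by ring, ← this]
      ring
    · have := Real.cosh_sub_sinh l
      rw [show l * (2 * 0 - 1) = -l by ring, ← this]
      ring
  rw [Finset.prod_congr rfl fun x _ => h1 x, ← Real.exp_sum, ← Finset.mul_sum,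
    Finset.sum_sub_distrib, ← Finset.mul_sum]
  congr 3
  · unfold cnt
    rw [Finset.natCast_card_filter]
  · simp

open Classical in
/-- The tail bound. -/
theorem tail (B : κ → Finset I) (hB : ∀ x x', x ≠ x' → Disjoint (B x) (B x'))
    (g : κ → (I → Bool) → Bool) (t : ℕ) (hg : ∀ x, DTr t (g x))
    (hs : ∀ x, Fintype.card κ * t < (B x).card) (ε : ℝ) (hε : 0 ≤ ε) :
    Ex unif (fun a : I → Bool => if (1 / 2 + ε) * Fintype.card κ ≤ cnt B g a then (1 : ℝ) else 0) ≤
      Real.exp (-(2 * ε ^ 2 * Fintype.card κ)) := by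
  have h1 : ∀ a : I → Bool, (if (1 / 2 + ε) * Fintype.card κ ≤ cnt B g a then (1 : ℝ) else 0) ≤
      Real.exp (-(4 * ε ^ 2 * Fintype.card κ)) * ∏ x : κ, (Real.sinh (2 * ε) *
        (sgb (g x a) * sgb (par (B x) a)) + Real.cosh (2 * ε)) := by
    intro a
    rw [exp_cnt, ← Real.exp_add]
    split_ifs with h
    · rw [← Real.exp_zero]
      apply Real.exp_le_exp.2
      nlinarith
    · exact (Real.exp_pos _).le
  have h2 : Ex unif (fun a : I → Bool =>
      if (1 / 2 + ε) * Fintype.card κ ≤ cnt B g a then (1 : ℝ) else 0) ≤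
      Ex unif (fun a : I → Bool => Real.exp (-(4 * ε ^ 2 * Fintype.card κ)) *
        ∏ x : κ, (Real.sinh (2 * ε) * (sgb (g x a) * sgb (par (B x) a)) + Real.cosh (2 * ε))) := by
    unfold Ex
    refine Finset.sum_le_sum fun a _ => ?_
    refine mul_le_mul_of_nonneg_left (h1 a) (Finset.prod_nonneg fun i _ => ?_)
    unfold unif
    norm_num
  refine h2.trans ?_
  rw [Ex_smul, moment B hB g t hg hs]
  have h3 : Real.cosh (2 * ε) ^ Fintype.card κ ≤ Real.exp (2 * ε ^ 2 * Fintype.card κ) := by
    have h4 := Real.cosh_le_exp_half_sq (2 * ε)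
    calc Real.cosh (2 * ε) ^ Fintype.card κ ≤ Real.exp ((2 * ε) ^ 2 / 2) ^ Fintype.card κ :=
          pow_le_pow_left₀ (Real.cosh_pos _).le h4 _
      _ = Real.exp (2 * ε ^ 2 * Fintype.card κ) := by
          rw [← Real.exp_nat_mul]
          congr 1
          ring
  calc Real.exp (-(4 * ε ^ 2 * Fintype.card κ)) * Real.cosh (2 * ε) ^ Fintype.card κ
      ≤ Real.exp (-(4 * ε ^ 2 * Fintype.card κ)) * Real.exp (2 * ε ^ 2 * Fintype.card κ) :=
        mul_le_mul_of_nonneg_left h3 (Real.exp_pos _).le
    _ = Real.exp (-(2 * ε ^ 2 * Fintype.card κ)) := by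
        rw [← Real.exp_add]
        congr 1
        ring

end

section

open Pool.Agent.W900.CH

variable {I κ : Type*} [Fintype I] [DecidableEq I] [Fintype κ] [DecidableEq κ]

open Classical in
/-- The transfer: changes which are not queried matter only for few parities. -/
theorem far_avg (B : κ → Finset I) (hB : ∀ x x', x ≠ x' → Disjoint (B x) (B x'))
    (g : κ → (I → Bool) → Bool) (p : ℕ)
    (hg : ∀ k a, ∃ A : Finset I, A.card ≤ p ∧
      ∀ y : I → Bool, (∀ i ∈ A, y i = a i) → g k y = g k a) (s : ℕ) (ρ : ℝ) :
    Ex unif (fun a : I → Bool =>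
      if ∃ b : I → Bool, (df a b).card ≤ s ∧ ρ + s ≤ cnt B g b then (1 : ℝ) else 0) ≤
      (Fintype.card κ * p + 1) ^ s *
        Ex unif (fun a : I → Bool => if ρ ≤ cnt B g a then (1 : ℝ) else 0) := by
  set K := Fintype.card κ with hK
  choose A hA hgA using hg
  let Q : (I → Bool) → Finset I := fun a => univ.biUnion fun k => A k a
  have hQ : ∀ a, (Q a).card ≤ K * p := by
    intro a
    have h1 : (Q a).card ≤ ∑ k : κ, (A k a).card := Finset.card_biUnion_le
    have h2 : ∑ k : κ, (A k a).card ≤ ∑ k : κ, p := Finset.sum_le_sum fun k _ => hA k a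
    rw [Finset.sum_const, Finset.card_univ, smul_eq_mul] at h2
    exact h1.trans h2
  have hsub : (univ.filter fun a : I → Bool => ∃ b : I → Bool, (df a b).card ≤ s ∧
      ρ + s ≤ cnt B g b) ⊆
      (univ.filter fun b : I → Bool => ρ ≤ cnt B g b).biUnion (fun b =>
        ((Q b).powerset.filter (fun D => D.card ≤ s)).image (fun D => ch b D)) := by
    intro a ha
    rw [Finset.mem_filter] at ha
    obtain ⟨_, b, hb, hr⟩ := ha
    -- a minimal set of changes
    obtain ⟨D, hD, hmin⟩ : ∃ D : Finset I, (D ⊆ df a b ∧ ∀ k, g k (ch a D) = g k b) ∧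
        ∀ i ∈ D, ¬ ∀ k, g k (ch a (D.erase i)) = g k b := by
      have hex : ∃ n, ∃ D : Finset I, (D ⊆ df a b ∧ ∀ k, g k (ch a D) = g k b) ∧ D.card = n := by
        refine ⟨_, df a b, ⟨subset_rfl, fun k => ?_⟩, rfl⟩
        have h1 : ch a (df a b) = b := by
          have h2 : df a b = df b a := by
            unfold df
            ext i
            simp only [Finset.mem_filter, ne_comm]
          rw [h2, ch_df]
        rw [h1]
      obtain ⟨D, hD, hn⟩ := Nat.find_spec hex
      refine ⟨D, hD, fun i hi h => ?_⟩
      have h1 : D.card - 1 < Nat.find hex := by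
        rw [← hn]
        have := Finset.card_pos.2 ⟨i, hi⟩
        omega
      apply Nat.find_min hex h1
      exact ⟨D.erase i, ⟨(Finset.erase_subset _ _).trans hD.1, h⟩, Finset.card_erase_of_mem hi⟩
    have hDQ : D ⊆ Q (ch a D) := by
      intro i hi
      by_contra hiQ
      apply hmin i hi
      intro k
      rw [← hD.2 k]
      apply hgA k (ch a D)
      intro i' hi'
      have hne : i' ≠ i := by
        rintro rfl
        apply hiQ
        simp only [Q, mem_biUnion, mem_univ, true_and]
        exact ⟨k, hi'⟩
      unfold ch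
      have h1 : i' ∈ D.erase i ↔ i' ∈ D := by
        rw [Finset.mem_erase]
        exact ⟨fun h => h.2, fun h => ⟨hne, h⟩⟩
      simp only [h1]
    rw [Finset.mem_biUnion]
    refine ⟨ch a D, ?_, ?_⟩
    · rw [Finset.mem_filter]
      refine ⟨mem_univ _, ?_⟩
      -- few parities are changed
      have h1 : (univ.filter fun x => g x b = par (B x) b) ⊆
          (univ.filter fun x => g x (ch a D) = par (B x) (ch a D)) ∪
          (univ.filter fun x => ∃ i ∈ df a b, i ∈ B x) := by
        intro x hx
        rw [Finset.mem_filter] at hx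
        rw [Finset.mem_union, Finset.mem_filter, Finset.mem_filter]
        by_cases h : ∃ i ∈ df a b, i ∈ B x
        · exact Or.inr ⟨mem_univ _, h⟩
        · left
          refine ⟨mem_univ _, ?_⟩
          push Not at h
          rw [hD.2 x, hx.2]
          unfold par
          have h2 : (B x).filter (fun i => b i = true) =
              (B x).filter (fun i => ch a D i = true) := by
            refine Finset.filter_congr fun i hi => ?_
            have h3 : i ∉ df a b := fun h' => h i h' hi
            have h4 : i ∉ D := fun h' => h3 (hD.1 h')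
            have h5 : a i = b i := by
              by_contra h6
              exact h3 (mem_df.2 h6)
            unfold ch
            rw [if_neg h4, h5]
          rw [h2]
      have h2 : (univ.filter fun x => ∃ i ∈ df a b, i ∈ B x).card ≤ s := by
        refine le_trans ?_ hb
        refine (Finset.card_le_card (t := (df a b).biUnion fun i =>
          univ.filter fun x => i ∈ B x) ?_).trans
          ((Finset.card_biUnion_le_card_mul _ _ 1 ?_).trans (by omega))
        · intro x hx
          obtain ⟨_, i, hi, hix⟩ := Finset.mem_filter.1 hx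
          exact Finset.mem_biUnion.2 ⟨i, hi, Finset.mem_filter.2 ⟨mem_univ _, hix⟩⟩
        · intro i _
          refine Finset.card_le_one.2 fun x hx y hy => ?_
          by_contra hne
          exact Finset.disjoint_left.1 (hB x y hne) (Finset.mem_filter.1 hx).2
            (Finset.mem_filter.1 hy).2
      have h3 : cnt B g b ≤ cnt B g (ch a D) + s := by
        have h4 := Finset.card_le_card h1
        have h5 := Finset.card_union_le
          (univ.filter fun x => g x (ch a D) = par (B x) (ch a D))
          (univ.filter fun x => ∃ i ∈ df a b, i ∈ B x)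
        unfold cnt
        omega
      have h4 : (cnt B g b : ℝ) ≤ cnt B g (ch a D) + s := by exact_mod_cast h3
      linarith
    · rw [Finset.mem_image]
      refine ⟨D, ?_, ch_ch a D⟩
      rw [Finset.mem_filter, Finset.mem_powerset]
      exact ⟨hDQ, (Finset.card_le_card hD.1).trans hb⟩
  have hcard : (univ.filter fun a : I → Bool => ∃ b : I → Bool, (df a b).card ≤ s ∧
      ρ + s ≤ cnt B g b).card ≤
      (univ.filter fun b : I → Bool => ρ ≤ cnt B g b).card * (K * p + 1) ^ s := by
    refine (Finset.card_le_card hsub).trans ?_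
    refine Finset.card_biUnion_le_card_mul _ _ _ fun b _ => ?_
    refine Finset.card_image_le.trans ((card_small' (Q b) s).trans ?_)
    exact Nat.pow_le_pow_left (Nat.add_le_add_right (hQ b) 1) s
  rw [Ex_ind, Ex_ind, ← mul_assoc]
  refine mul_le_mul_of_nonneg_right ?_ (by positivity)
  calc (((univ.filter fun a : I → Bool => ∃ b : I → Bool, (df a b).card ≤ s ∧
      ρ + s ≤ cnt B g b).card : ℕ) : ℝ) ≤
      (((univ.filter fun b : I → Bool => ρ ≤ cnt B g b).card * (K * p + 1) ^ s : ℕ) : ℝ) := by
        exact_mod_cast hcard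
    _ = (K * p + 1) ^ s * ((univ.filter fun b : I → Bool => ρ ≤ cnt B g b).card : ℝ) := by
        push_cast
        ring

end

end Pool.Agent.TH771.EA
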