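import Pool.Agent.TH771.EA.Avg
import Pool.Agent.W900.CH.EFar

/-!
# Few changes do not help algorithms with advice to approximate the parity test language
-/

set_option autoImplicit false

namespace Pool.Agent.TH771.EA

open Finset Pool.Agent.NPC Pool.Agent.H620R2.Gauge Pool.Agent.H622R2.Exp H568R2 MeasureTheory
open Pool.Agent.W900.CH

/-- the blocks -/
noncomputable def Bk (n N : ℕ) (k : Fin (2 ^ n)) : Finset (Fin N) :=
  blk N (padq q4 (bitsOf n k.val))

/-- the decisions -/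
def dec (M : Alg) (T n N : ℕ) (w : List Bool) (k : Fin (2 ^ n)) (a : Fin N → Bool) : Bool :=
  decide (M.run (orc N a) (pairBits (bitsOf n k.val) w) T [] = some [true])

/-- The event: for some advice and after few changes the algorithm is right on many inputs. -/
def EvA (M : Alg) (T n N K s : ℕ) (ρ : ℝ) (a : Fin N → Bool) : Prop :=
  ∃ w : List Bool, w.length ≤ K ∧ ∃ b : Fin N → Bool, (df a b).card ≤ s ∧
    ρ + s ≤ cnt (Bk n N) (dec M T n N w) b

theorem Bk_disj (n N : ℕ) (x x' : Fin (2 ^ n)) (hne : x ≠ x') : Disjoint (Bk n N x) (Bk n N x') := by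
  have hpl : ∀ i, (padq q4 (bitsOf n i)).length = mm n := fun i => by
    rw [E0.length_padq4, length_bitsOf]
  apply blk_disj
  · rw [hpl, hpl]
  · intro h
    exact hne (Fin.ext (bitsOf_inj x.2 x'.2 (E0.padq_inj h)))

open Classical in
theorem evA_bound (M : Alg) (q n N K s : ℕ) (hN : 2 ^ (3 * mm n + 1) ≤ N) (hq : n + q < mm n)
    (ε : ℝ) (hε : 0 ≤ ε) :
    Ex unif (fun a : Fin N → Bool => if EvA M (2 ^ q) n N K s ((1 / 2 + ε) * 2 ^ n) a
      then (1 : ℝ) else 0) ≤
      2 ^ (K + 1) * ((2 ^ n * 2 ^ q + 1) ^ s * Real.exp (-(2 * ε ^ 2 * 2 ^ n))) := by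
  have hpl : ∀ i, (padq q4 (bitsOf n i)).length = mm n := fun i => by
    rw [E0.length_padq4, length_bitsOf]
  have hcard : ∀ x : Fin (2 ^ n), (Bk n N x).card = 2 ^ mm n := by
    intro x
    unfold Bk
    rw [blk_card N _ (by
      rw [hpl]
      have : 2 ^ (2 * mm n + 1) ≤ 2 ^ (3 * mm n + 1) :=
        Nat.pow_le_pow_right (by norm_num) (by omega)
      omega), hpl]
  have h1 : ∀ w : List Bool, Ex unif (fun a : Fin N → Bool =>
      if ∃ b : Fin N → Bool, (df a b).card ≤ s ∧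
        (1 / 2 + ε) * 2 ^ n + s ≤ cnt (Bk n N) (dec M (2 ^ q) n N w) b then (1 : ℝ) else 0) ≤
      (2 ^ n * 2 ^ q + 1) ^ s * Real.exp (-(2 * ε ^ 2 * 2 ^ n)) := by
    intro w
    have h2 := far_avg (Bk n N) (Bk_disj n N) (dec M (2 ^ q) n N w) (2 ^ q) (by
      intro k a
      exact (dtr_run M N (pairBits (bitsOf n k.val) w) (2 ^ q) []).cert _ a rfl) s
      ((1 / 2 + ε) * 2 ^ n)
    have h3 := tail (Bk n N) (Bk_disj n N) (dec M (2 ^ q) n N w) (2 ^ q) (fun k =>
      dtr_run M N (pairBits (bitsOf n k.val) w) (2 ^ q) []) (by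
      intro x
      rw [hcard, Fintype.card_fin, ← pow_add]
      exact Nat.pow_lt_pow_right (by norm_num) hq) ε hε
    rw [Fintype.card_fin] at h2 h3
    push_cast at h2 h3
    exact h2.trans (mul_le_mul_of_nonneg_left h3 (by positivity))
  have hsub : (univ.filter fun a : Fin N → Bool =>
      EvA M (2 ^ q) n N K s ((1 / 2 + ε) * 2 ^ n) a) ⊆
      (Finset.range (2 ^ (K + 1))).biUnion fun j => univ.filter fun a : Fin N → Bool =>
        ∃ b : Fin N → Bool, (df a b).card ≤ s ∧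
        (1 / 2 + ε) * 2 ^ n + s ≤ cnt (Bk n N) (dec M (2 ^ q) n N (str j)) b := by
    intro a ha
    obtain ⟨_, w, hw, h⟩ := Finset.mem_filter.1 ha
    rw [Finset.mem_biUnion]
    refine ⟨idx w, ?_, ?_⟩
    · rw [Finset.mem_range]
      have h4 := idx_lt w
      have h5 : 2 ^ (w.length + 1) ≤ 2 ^ (K + 1) := Nat.pow_le_pow_right (by norm_num) (by omega)
      omega
    · rw [Finset.mem_filter, str_idx]
      exact ⟨mem_univ _, h⟩
  rw [Ex_ind]
  have h6 : ((univ.filter fun a : Fin N → Bool =>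
      EvA M (2 ^ q) n N K s ((1 / 2 + ε) * 2 ^ n) a).card : ℝ) ≤
      ∑ j ∈ Finset.range (2 ^ (K + 1)), ((univ.filter fun a : Fin N → Bool =>
        ∃ b : Fin N → Bool, (df a b).card ≤ s ∧
        (1 / 2 + ε) * 2 ^ n + s ≤ cnt (Bk n N) (dec M (2 ^ q) n N (str j)) b).card : ℝ) := by
    have h7 := (Finset.card_le_card hsub).trans Finset.card_biUnion_le
    exact_mod_cast h7
  calc ((univ.filter fun a : Fin N → Bool =>
      EvA M (2 ^ q) n N K s ((1 / 2 + ε) * 2 ^ n) a).card : ℝ) * (1 / 2) ^ Fintype.card (Fin N)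
      ≤ (∑ j ∈ Finset.range (2 ^ (K + 1)), ((univ.filter fun a : Fin N → Bool =>
        ∃ b : Fin N → Bool, (df a b).card ≤ s ∧
        (1 / 2 + ε) * 2 ^ n + s ≤ cnt (Bk n N) (dec M (2 ^ q) n N (str j)) b).card : ℝ)) *
        (1 / 2) ^ Fintype.card (Fin N) := mul_le_mul_of_nonneg_right h6 (by positivity)
    _ ≤ ∑ j ∈ Finset.range (2 ^ (K + 1)),
        (2 ^ n * 2 ^ q + 1) ^ s * Real.exp (-(2 * ε ^ 2 * 2 ^ n)) := by
        rw [Finset.sum_mul]
        refine Finset.sum_le_sum fun j _ => ?_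
        have h8 := h1 (str j)
        rw [Ex_ind] at h8
        exact h8
    _ = _ := by
        rw [Finset.sum_const, Finset.card_range, nsmul_eq_mul]
        push_cast
        ring

/-- The number of the inputs `x` of length `n` on which the algorithm `M` with the oracle `A`, given
`x` and the advice `w`, is right about `x ∈ L` within `T` rounds: it outputs `[true]` if and only if
`x ∈ L`. -/
noncomputable def right (M : Alg) (A : Oracle) (w : List Bool) (T n : ℕ) (L : Set (List Bool)) : ℕ :=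
  {x : List Bool | x.length = n ∧ (M.run A (pairBits x w) T [] = some [true] ↔ x ∈ L)}.ncard

/-- locality -/
theorem right_le (M : Alg) {q : Polynomial ℕ} (hq : q ∈ Lin) :
    ∃ r ∈ Lin, (∀ n, 3 * mm n + 1 ≤ 2 ^ r.eval n) ∧ ∀ (A : Oracle) (n N : ℕ) (w : List Bool),
      w.length ≤ 2 ^ n → 2 ^ 2 ^ r.eval n ≤ N →
      right M A w (2 ^ q.eval n) n (par2 A) ≤
        cnt (Bk n N) (dec M (2 ^ q.eval n) n N w) (pre N A) := by
  obtain ⟨b, hb⟩ := run_local M
  obtain ⟨r, hr, h⟩ := F1.exists_exponent good_Lin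
    (b.comp (Polynomial.C 2 * Polynomial.X + 1)) (good_Lin.add q hq q4 (good_Lin.lin 4))
  refine ⟨r, hr, fun n => by have := h n; omega, fun A n N w hw hN => ?_⟩
  have hn := h n
  have hpl : ∀ i, (padq q4 (bitsOf n i)).length = mm n := fun i => by
    rw [E0.length_padq4, length_bitsOf]
  have hbl : ∀ k : Fin (2 ^ n), par (Bk n N k) (pre N A) = true ↔ bitsOf n k.val ∈ par2 A := by
    intro k
    unfold Bk par2
    rw [blk_par, Set.mem_ofPred_eq]
    rw [hpl]
    have : 2 ^ (2 * mm n + 1) ≤ 2 ^ 2 ^ r.eval n := Nat.pow_le_pow_right (by norm_num) (by omega)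
    omega
  have hrun : ∀ k : Fin (2 ^ n), M.run (orc N (pre N A)) (pairBits (bitsOf n k.val) w)
      (2 ^ q.eval n) [] = M.run A (pairBits (bitsOf n k.val) w) (2 ^ q.eval n) [] := by
    intro k
    obtain ⟨Q, _, hQl, hQ⟩ := hb A (pairBits (bitsOf n k.val) w) (2 ^ q.eval n)
    apply hQ
    intro y hy
    have h3 := hQl y hy
    have h4 : b.eval ((pairBits (bitsOf n k.val) w).length + 2 ^ q.eval n) ≤
        (b.comp (Polynomial.C 2 * Polynomial.X + 1)).eval (n + 2 ^ (q + q4).eval n) := by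
      rw [Polynomial.eval_comp]
      apply eval_mono
      simp only [Polynomial.eval_add, Polynomial.eval_mul, Polynomial.eval_C, Polynomial.eval_X,
        Polynomial.eval_one, F1.eval_q4]
      rw [Pool.Agent.H620R2.Gauge.length_pairBits, length_bitsOf]
      have e1 : 2 ^ q.eval n ≤ 2 ^ (q.eval n + 4 * (n + 1)) :=
        Nat.pow_le_pow_right (by norm_num) (by omega)
      have e2 : 2 ^ n ≤ 2 ^ (q.eval n + 4 * (n + 1)) :=
        Nat.pow_le_pow_right (by norm_num) (by omega)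
      omega
    exact F1.orc_of_len hN (by omega)
  unfold right cnt
  rw [← Finset.card_image_of_injOn (f := fun k : Fin (2 ^ n) => bitsOf n k.val) (by
    intro k _ k' _ hkk
    exact Fin.ext (bitsOf_inj k.2 k'.2 hkk)), ← Set.ncard_coe_finset]
  refine Set.ncard_le_ncard ?_ (Finset.finite_toSet _)
  rintro x ⟨hx, hxx⟩
  obtain ⟨j, hj, hjx⟩ := exists_bitsOf x
  rw [hx] at hj hjx
  rw [Finset.mem_coe, Finset.mem_image]
  refine ⟨⟨j, hj⟩, ?_, hjx⟩
  rw [Finset.mem_filter]
  refine ⟨mem_univ _, ?_⟩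
  have h5 := hbl ⟨j, hj⟩
  have h6 := hrun ⟨j, hj⟩
  simp only at h5 h6
  rw [hjx] at h5 h6
  have h7 : dec M (2 ^ q.eval n) n N w ⟨j, hj⟩ (pre N A) = true ↔ x ∈ par2 A := by
    unfold dec
    rw [decide_eq_true_eq, hjx, h6]
    exact hxx
  rw [← h5] at h7
  exact Bool.eq_iff_iff.2 h7

end Pool.Agent.TH771.EA
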