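import Pool.Agent.TH771.EA.Event

/-!
# Near a random oracle `E` with advice cannot approximate `ESPACE`
-/

set_option autoImplicit false

namespace Pool.Agent.TH771.EA

open Finset Pool.Agent.NPC Pool.Agent.H620R2.Gauge Pool.Agent.H622R2.Exp H568R2 MeasureTheory
open Pool.Agent.W900.CH
open Pool.Agent.H628R3.RO (randomOracle)

/-- the bound is small -/
theorem small_avg (c : ℕ) {ε δ : ℝ} (hε : 0 < ε) (hε1 : ε ≤ 1) (hδ : 0 < δ) :
    ∃ n₀ : ℕ, ∀ n ≥ n₀, ∀ s : ℕ, s ≤ 2 ^ (n / 4) → ∀ K : ℕ, (K : ℝ) ≤ ε ^ 2 / 8 * 2 ^ n →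
      n + c * (n + 1) < mm n ∧ (s : ℝ) ≤ ε / 2 * 2 ^ n ∧
      (2 : ℝ) ^ (K + 1) * ((2 ^ n * 2 ^ (c * (n + 1)) + 1) ^ s *
        Real.exp (-(2 * (ε / 2) ^ 2 * 2 ^ n))) ≤ δ := by
  obtain ⟨k₀, hk₀⟩ := Filter.eventually_atTop.1 (E0.poly_le
    ((Polynomial.C c * (Polynomial.X + 1) + Polynomial.X + Polynomial.C 3).comp
      (Polynomial.C 4 * Polynomial.X + Polynomial.C 4)) 1)
  obtain ⟨k₁, hk₁⟩ := pow_unbounded_of_one_lt (8 / ε ^ 2) (by norm_num : (1 : ℝ) < 2)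
  obtain ⟨k₂, hk₂⟩ := exists_nat_ge (-Real.log δ)
  refine ⟨4 * k₀ + 4 * k₁ + 4 * k₂ + 16, fun n hn s hs K hK => ?_⟩
  obtain ⟨u, hu⟩ : ∃ u, u = n / 4 := ⟨_, rfl⟩
  rw [← hu] at hs
  have hu1 : k₀ ≤ u := by omega
  have hu2 : 4 * u ≤ n := by omega
  have hu3 : n ≤ 4 * u + 4 := by omega
  have hu4 : k₁ ≤ u := by omega
  have hu5 : k₂ ≤ u := by omega
  have hP : c * (n + 1) + n + 3 ≤ 2 ^ u := by
    have h1 := hk₀ u hu1
    rw [one_mul, Polynomial.eval_comp] at h1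
    have h2 := eval_mono (Polynomial.C c * (Polynomial.X + 1) + Polynomial.X + Polynomial.C 3) hu3
    simp only [Polynomial.eval_add, Polynomial.eval_mul, Polynomial.eval_C,
      Polynomial.eval_X, Polynomial.eval_one] at h1 h2
    omega
  have e2 : 2 ^ u ≤ 2 ^ (2 * u) := Nat.pow_le_pow_right (by norm_num) (by omega)
  have e5 : u < 2 ^ u := Nat.lt_two_pow_self
  have e6 : 2 ^ u ≤ 2 ^ n := Nat.pow_le_pow_right (by norm_num) (by omega)
  obtain ⟨q, hq⟩ : ∃ q, q = c * (n + 1) := ⟨_, rfl⟩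
  rw [← hq] at hP ⊢
  -- the reals
  have r1 : (2 : ℝ) ^ (2 * u) ≤ ε ^ 2 / 8 * 2 ^ n := by
    have h1 : 8 / ε ^ 2 ≤ (2 : ℝ) ^ (2 * u) :=
      hk₁.le.trans (pow_le_pow_right₀ (by norm_num) (by omega))
    have h2 : (2 : ℝ) ^ (2 * u) * 2 ^ (2 * u) ≤ 2 ^ n := by
      rw [← pow_add]
      exact pow_le_pow_right₀ (by norm_num) (by omega)
    have h3 : (0 : ℝ) < ε ^ 2 := by positivity
    have h4 : 1 ≤ ε ^ 2 / 8 * 2 ^ (2 * u) := by
      rw [div_le_iff₀ h3] at h1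
      linarith
    calc (2 : ℝ) ^ (2 * u) ≤ 2 ^ (2 * u) * (ε ^ 2 / 8 * 2 ^ (2 * u)) :=
          le_mul_of_one_le_right (by positivity) h4
      _ = ε ^ 2 / 8 * (2 ^ (2 * u) * 2 ^ (2 * u)) := by ring
      _ ≤ ε ^ 2 / 8 * 2 ^ n := mul_le_mul_of_nonneg_left h2 (by positivity)
  have hX : (0 : ℝ) < 2 ^ n := by positivity
  refine ⟨?_, ?_, ?_⟩
  · have h1 := E0.mm_ge n
    have h2 : 2 ^ (n + 3) = 8 * 2 ^ n := by rw [pow_add]; norm_num; ring
    omega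
  · have h1 : (s : ℝ) ≤ 2 ^ (2 * u) := by exact_mod_cast hs.trans e2
    have h2 : ε ^ 2 / 8 ≤ ε / 2 := by nlinarith
    exact (h1.trans r1).trans (mul_le_mul_of_nonneg_right h2 hX.le)
  · have g1 : (2 : ℝ) ^ n * 2 ^ q + 1 ≤ 2 ^ (n + q + 1) := by
      rw [pow_succ, pow_add]
      have h1 : (1 : ℝ) ≤ 2 ^ n * 2 ^ q := by
        have ha : (1 : ℝ) ≤ 2 ^ n := one_le_pow₀ (by norm_num)
        have hb : (1 : ℝ) ≤ 2 ^ q := one_le_pow₀ (by norm_num)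
        nlinarith
      linarith
    have g2 : (2 : ℝ) ^ (K + 1) * (2 ^ n * 2 ^ q + 1) ^ s ≤ 2 ^ (K + (1 + (n + q + 1) * s)) := by
      calc (2 : ℝ) ^ (K + 1) * (2 ^ n * 2 ^ q + 1) ^ s
          ≤ 2 ^ (K + 1) * (2 ^ (n + q + 1)) ^ s := by gcongr
        _ = 2 ^ (K + (1 + (n + q + 1) * s)) := by
            rw [← pow_mul, ← pow_add]
            congr 1
            ring
    have g3 : 1 + (n + q + 1) * s ≤ 2 ^ (2 * u) := by
      have h1 : (n + q + 1) * s ≤ (2 ^ u - 1) * 2 ^ u := Nat.mul_le_mul (by omega) hs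
      have h2 : (2 ^ u - 1) * 2 ^ u + 2 ^ u = 2 ^ (2 * u) := by
        rw [two_mul, pow_add, Nat.sub_mul, one_mul]
        have : 2 ^ u ≤ 2 ^ u * 2 ^ u := Nat.le_mul_of_pos_left _ (by positivity)
        omega
      omega
    have g4 : (2 : ℝ) ^ (K + (1 + (n + q + 1) * s)) ≤ Real.exp (ε ^ 2 / 4 * 2 ^ n) := by
      have h1 : (2 : ℝ) ≤ Real.exp 1 := by
        have := Real.add_one_le_exp (1 : ℝ)
        linarith
      calc (2 : ℝ) ^ (K + (1 + (n + q + 1) * s)) ≤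
            (Real.exp 1) ^ (K + (1 + (n + q + 1) * s)) :=
            pow_le_pow_left₀ (by norm_num) h1 _
        _ = Real.exp ((K + (1 + (n + q + 1) * s) : ℕ) : ℝ) := by
            rw [← Real.exp_nat_mul, mul_one]
        _ ≤ Real.exp (ε ^ 2 / 4 * 2 ^ n) := by
            apply Real.exp_le_exp.2
            have h2 : (((1 + (n + q + 1) * s : ℕ)) : ℝ) ≤ 2 ^ (2 * u) := by exact_mod_cast g3
            rw [Nat.cast_add]
            linarith
    have g5 : Real.exp (-(ε ^ 2 / 4 * 2 ^ n)) ≤ δ := by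
      rw [← Real.le_log_iff_exp_le hδ]
      have h1 : (k₂ : ℝ) ≤ 2 ^ (2 * u) := by
        have : k₂ ≤ 2 ^ (2 * u) := by omega
        exact_mod_cast this
      linarith
    calc (2 : ℝ) ^ (K + 1) * ((2 ^ n * 2 ^ q + 1) ^ s *
          Real.exp (-(2 * (ε / 2) ^ 2 * 2 ^ n)))
        = ((2 : ℝ) ^ (K + 1) * (2 ^ n * 2 ^ q + 1) ^ s) *
          Real.exp (-(2 * (ε / 2) ^ 2 * 2 ^ n)) := by ring
      _ ≤ Real.exp (ε ^ 2 / 4 * 2 ^ n) * Real.exp (-(2 * (ε / 2) ^ 2 * 2 ^ n)) :=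
          mul_le_mul_of_nonneg_right (g2.trans g4) (Real.exp_pos _).le
      _ = Real.exp (-(ε ^ 2 / 4 * 2 ^ n)) := by
          rw [← Real.exp_add]
          congr 1
          ring
      _ ≤ δ := g5

/-- the exceptional oracles for one algorithm -/
def SA (θ : Alg × Lin × ℕ × ℕ) : Set Oracle :=
  {A | ∀ n ≥ θ.2.2.2, ∃ w : List Bool,
    (w.length : ℝ) ≤ (1 / ((θ.2.2.1 : ℝ) + 1)) ^ 2 / 8 * 2 ^ n ∧
    (1 / 2 + 1 / ((θ.2.2.1 : ℝ) + 1)) * 2 ^ n <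
      right θ.1 A w (2 ^ (θ.2.1 : Polynomial ℕ).eval n) n (par2 A)}

theorem ae_SA {g : ℕ → ℝ}
    (hg : ∀ ε : ℝ, 0 < ε → ∃ᶠ n : ℕ in Filter.atTop, g n ≤ (n : ℝ) ^ ε)
    (θ : Alg × Lin × ℕ × ℕ) :
    ∀ᵐ O ∂randomOracle, ∀ A, Close g O A → A ∉ SA θ := by
  classical
  obtain ⟨M, ⟨q, hq⟩, j, n₂⟩ := θ
  refine ae_far_of fun n₁ => measure_of_null ?_
  intro δ hδ
  obtain ⟨c', hc'⟩ := hq
  have hqe : ∀ n, q.eval n = c' * (n + 1) := by
    intro n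
    rw [hc']
    simp
  obtain ⟨r, ⟨c, hc⟩, hr1, hr2⟩ := right_le M ⟨c', hc'⟩
  have hre : ∀ n, r.eval n = c * (n + 1) := by
    intro n
    rw [hc]
    simp
  have hc1 : 1 ≤ c := by
    by_contra h
    have h1 := hr1 0
    rw [hre] at h1
    have : c = 0 := by omega
    subst this
    simp at h1
    unfold mm at h1
    omega
  obtain ⟨ε, hεe⟩ : ∃ ε : ℝ, ε = 1 / ((j : ℝ) + 1) := ⟨_, rfl⟩
  have hj0 : (0 : ℝ) ≤ j := Nat.cast_nonneg j
  have hε : 0 < ε := by rw [hεe]; positivity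
  have hε1 : ε ≤ 1 := by
    rw [hεe, div_le_one (by positivity)]
    linarith
  obtain ⟨n₀, hn₀⟩ := small_avg c' hε hε1 hδ
  -- the length
  have hcR : (0 : ℝ) < c := by exact_mod_cast hc1
  obtain ⟨m, hgm, hm⟩ := ((hg (1 / (8 * c)) (by positivity)).and_eventually
    (Filter.eventually_ge_atTop (n₁ + 2 ^ (c * (n₀ + n₂ + 17))))).exists
  obtain ⟨n, hn⟩ : ∃ n, n = Nat.log 2 m / c - 1 := ⟨_, rfl⟩
  have hm0 : m ≠ 0 := by
    have : 0 < 2 ^ (c * (n₀ + n₂ + 17)) := by positivity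
    omega
  have hlog : c * (n₀ + n₂ + 17) ≤ Nat.log 2 m := by
    apply Nat.le_log_of_pow_le (by norm_num)
    omega
  have hdiv : n₀ + n₂ + 17 ≤ Nat.log 2 m / c := by
    rw [Nat.le_div_iff_mul_le hc1, mul_comm]
    exact hlog
  have hn1 : n + 1 = Nat.log 2 m / c := by omega
  have hle : 2 ^ (c * (n + 1)) ≤ m := by
    have h1 : c * (n + 1) ≤ Nat.log 2 m := by
      rw [hn1]
      exact Nat.mul_div_le _ _
    exact (Nat.pow_le_pow_right (by norm_num) h1).trans (Nat.pow_log_le_self 2 hm0)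
  have hlt : m < 2 ^ (c * (n + 2)) := by
    have h1 : Nat.log 2 m < c * (n + 2) := by
      have h2 := Nat.lt_mul_div_succ (Nat.log 2 m) hc1
      rw [show n + 2 = Nat.log 2 m / c + 1 by omega]
      exact h2
    exact lt_of_lt_of_le (Nat.lt_pow_succ_log_self (by norm_num) m)
      (Nat.pow_le_pow_right (by norm_num) h1)
  -- the number of changes
  obtain ⟨s, hs⟩ : ∃ s, s = ⌊g m⌋₊ := ⟨_, rfl⟩
  have hs4 : s ≤ 2 ^ (n / 4) := by
    have h1 : (s : ℝ) ≤ (2 : ℝ) ^ (n / 4 : ℕ) := by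
      have h2 : (s : ℝ) ≤ (m : ℝ) ^ (1 / (8 * c : ℝ)) := by
        rw [hs]
        rcases le_total 0 (g m) with h | h
        · exact (Nat.floor_le h).trans hgm
        · rw [Nat.floor_of_nonpos h]
          push_cast
          positivity
      have h3 : (m : ℝ) ^ (1 / (8 * c : ℝ)) ≤ ((2 : ℝ) ^ (c * (n + 2))) ^ (1 / (8 * c : ℝ)) := by
        apply Real.rpow_le_rpow (by positivity) _ (by positivity)
        exact_mod_cast hlt.le
      have h4 : ((2 : ℝ) ^ (c * (n + 2))) ^ (1 / (8 * c : ℝ)) = (2 : ℝ) ^ (((n : ℝ) + 2) / 8) := by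
        rw [← Real.rpow_natCast, ← Real.rpow_mul (by norm_num)]
        congr 1
        push_cast
        field_simp
      have h5 : (2 : ℝ) ^ (((n : ℝ) + 2) / 8) ≤ (2 : ℝ) ^ ((n / 4 : ℕ) : ℝ) := by
        apply Real.rpow_le_rpow_of_exponent_le (by norm_num)
        have h6 : n + 2 ≤ 8 * (n / 4) := by omega
        have h7 : ((n : ℝ) + 2) ≤ 8 * ((n / 4 : ℕ) : ℝ) := by exact_mod_cast h6
        linarith
      rw [Real.rpow_natCast] at h5
      linarith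
    exact_mod_cast h1
  obtain ⟨K, hK⟩ : ∃ K, K = ⌊ε ^ 2 / 8 * 2 ^ n⌋₊ := ⟨_, rfl⟩
  have hK1 : (K : ℝ) ≤ ε ^ 2 / 8 * 2 ^ n := by
    rw [hK]
    exact Nat.floor_le (by positivity)
  obtain ⟨t1, t2, t3⟩ := hn₀ n (by omega) s hs4 K hK1
  obtain ⟨N, hN⟩ : ∃ N, N = 2 ^ 2 ^ r.eval n := ⟨_, rfl⟩
  have hN1 : 2 ^ (3 * mm n + 1) ≤ N := by
    rw [hN]
    exact Nat.pow_le_pow_right (by norm_num) (hr1 n)
  refine cover_of_event (EvA M (2 ^ q.eval n) n N K s ((1 / 2 + ε / 2) * 2 ^ n)) _ ?_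
    (fun _ => 0) δ ?_
  · rintro O ⟨A, hA, hd⟩
    obtain ⟨w, hw, hwr⟩ := hA n (by show n₂ ≤ n; omega)
    simp only at hw hwr
    rw [← hεe] at hw hwr
    refine ⟨w, ?_, pre N A, ?_, ?_⟩
    · rw [hK]
      exact Nat.le_floor hw
    · refine (df_pre O A N).trans ?_
      have h1 : Nat.log 2 N = 2 ^ r.eval n := by
        rw [hN]
        exact Nat.log_pow (by norm_num) _
      rw [h1, hre, hs]
      refine (dist_mono O A hle).trans (Nat.le_floor ?_)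
      exact hd m (le_trans (Nat.le_add_right _ _) hm)
    · have hw2 : w.length ≤ 2 ^ n := by
        have h1 : (w.length : ℝ) ≤ 2 ^ n := by
          have h2 : ε ^ 2 / 8 ≤ 1 := by nlinarith
          have h3 : (0 : ℝ) < 2 ^ n := by positivity
          nlinarith
        exact_mod_cast h1
      have h4 : (right M A w (2 ^ q.eval n) n (par2 A) : ℝ) ≤
          cnt (Bk n N) (dec M (2 ^ q.eval n) n N w) (pre N A) := by
        exact_mod_cast hr2 A n N w hw2 hN.ge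
      have h5 : (1 / 2 + ε / 2) * 2 ^ n + (s : ℝ) ≤ (1 / 2 + ε) * 2 ^ n := by
        linarith
      exact h5.trans (hwr.le.trans h4)
  · rw [Real.rpow_zero, mul_one]
    have h1 := evA_bound M (q.eval n) n N K s hN1 (by rw [hqe]; exact t1) (ε / 2) (by positivity)
    rw [hqe] at h1 ⊢
    exact h1.trans t3

/-- Near almost every oracle no algorithm of `E` with `o(2^n)` bits of advice is right about the
parity test language, which is in `ESPACE`, for more than half and a positive part of the inputs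
of every large length. -/
theorem ae_avg {g : ℕ → ℝ}
    (hg : ∀ ε : ℝ, 0 < ε → ∃ᶠ n : ℕ in Filter.atTop, g n ≤ (n : ℝ) ^ ε) :
    ∀ᵐ O ∂randomOracle, ∀ A, Close g O A → ∀ M : Alg, ∀ q ∈ Lin, ∀ h : ℕ → List Bool,
      (∀ ε : ℝ, 0 < ε → ∀ᶠ n : ℕ in Filter.atTop, ((h n).length : ℝ) ≤ ε * 2 ^ n) →
      ∀ ε : ℝ, 0 < ε → ∃ᶠ n : ℕ in Filter.atTop,
        (right M A (h n) (2 ^ q.eval n) n (par2 A) : ℝ) ≤ (1 / 2 + ε) * 2 ^ n := by
  have hc : Countable (Polynomial ℕ) := N1.countable_poly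
  have hcE : Countable Lin := inferInstance
  filter_upwards [ae_all_iff.2 fun θ : Alg × Lin × ℕ × ℕ => ae_SA hg θ] with O hO
  intro A hA M q hq h hh ε hε
  by_contra hne
  rw [Filter.not_frequently] at hne
  obtain ⟨j, hj⟩ := exists_nat_one_div_lt hε
  have hjp : (0 : ℝ) < 1 / ((j : ℝ) + 1) := by positivity
  obtain ⟨n₀, hn₀⟩ := Filter.eventually_atTop.1
    (hne.and (hh ((1 / ((j : ℝ) + 1)) ^ 2 / 8) (by positivity)))
  refine hO (M, ⟨q, hq⟩, j, n₀) A hA ?_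
  intro n hn
  obtain ⟨h1, h2⟩ := hn₀ n hn
  refine ⟨h n, h2, ?_⟩
  rw [not_le] at h1
  refine lt_of_le_of_lt ?_ h1
  have h3 : (0 : ℝ) < 2 ^ n := by positivity
  exact mul_le_mul_of_nonneg_right (by linarith) h3.le

end Pool.Agent.TH771.EA
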