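import Pool.Agent.TH771.EA.Event

/-!
# Near a random oracle `NE` is not in `E` with `2 ^ n / 128` bits of advice
-/

set_option autoImplicit false

namespace Pool.Agent.TH771.EA

open Finset Pool.Agent.NPC Pool.Agent.H620R2.Gauge Pool.Agent.H622R2.Exp H568R2 MeasureTheory
open Pool.Agent.W900.CH
open Pool.Agent.H628R3.RO (randomOracle)

/-- with advice `w` the algorithm decides the test language on the inputs of length `n` -/
def EvW (M : Alg) (q n N : ℕ) (w : List Bool) (b : Fin N → Bool) : Prop :=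
  ∀ i < 2 ^ n, (M.run (orc N b) (pairBits (bitsOf n i) w) (2 ^ q) [] = some [true] ↔
    ∃ j < 2 ^ mm n, ∀ l < mm n, orc N b (wit (padq q4 (bitsOf n i)) j l) = true)

open Classical in
theorem evW_bound (M : Alg) (q n N s : ℕ) (w : List Bool) (hN : 2 ^ (3 * mm n + 1) ≤ N) :
    Ex unif (fun a : Fin N → Bool => if ∃ b : Fin N → Bool, (df a b).card ≤ s ∧ EvW M q n N w b
      then (1 : ℝ) else 0) ≤
      (2 ^ n * 2 ^ q + 1) ^ s * ((2 ^ n + 1) ^ s *
        ((11 / 12) ^ (2 ^ n - s) + 2 ^ 2 ^ n * (2 ^ n * (2 ^ q + 1)) / 2 ^ mm n)) := by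
  have hlen : ∀ i, (bitsOf n i).length = n := fun i => length_bitsOf n i
  have hpl : ∀ i, (padq q4 (bitsOf n i)).length = mm n := fun i => by
    rw [E0.length_padq4, hlen]
  have h1 := far_prob (I := Fin N) (κ := Fin (2 ^ n)) (J := Fin (2 ^ mm n)) (m := mm n)
    (p := 2 ^ q) (E0.one_le_mm n) (by simp)
    (fun k j => witF N (padq q4 (bitsOf n k.val)) j.val) (by
      intro k j
      rw [witF_card (by rw [hpl]; omega), hpl]) (by
      intro k j k' j' hne
      refine E0.windows_disj (hlen _) (hlen _) j.2 j'.2 ?_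
      intro he
      apply hne
      rw [Prod.mk.injEq] at he ⊢
      exact ⟨Fin.ext (bitsOf_inj k.2 k'.2 he.1), Fin.ext he.2⟩)
    (fun k a => decide (M.run (orc N a) (pairBits (bitsOf n k.val) w) (2 ^ q) [] = some [true])) (by
      intro k a
      exact (dtr_run M N (pairBits (bitsOf n k.val) w) (2 ^ q) []).cert _ a rfl) s
  have h2 : ∀ a : Fin N → Bool, EvW M q n N w a ↔ ∀ k : Fin (2 ^ n),
      (decide (M.run (orc N a) (pairBits (bitsOf n k.val) w) (2 ^ q) [] = some [true]) = true ↔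
        HitF (fun j : Fin (2 ^ mm n) => witF N (padq q4 (bitsOf n k.val)) j.val) a) := by
    intro a
    have h3 : ∀ k : ℕ, HitF (fun j : Fin (2 ^ mm n) => witF N (padq q4 (bitsOf n k)) j.val) a ↔
        ∃ j < 2 ^ mm n, ∀ l < mm n, orc N a (wit (padq q4 (bitsOf n k)) j l) = true := by
      intro k
      have h4 := E0.hitF_iff (N := N) (x := padq q4 (bitsOf n k)) (by rw [hpl]; omega) a
      rw [hpl] at h4
      exact h4
    unfold EvW
    constructor
    · intro h k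
      rw [decide_eq_true_eq, h3]
      exact h k.val k.2
    · intro h k hk
      have := h ⟨k, hk⟩
      rw [decide_eq_true_eq, h3] at this
      exact this
  refine le_trans (le_of_eq ?_) (h1.trans (le_of_eq ?_))
  · congr 1
    funext a
    refine if_congr ?_ rfl rfl
    unfold Far
    exact exists_congr fun b => and_congr_right fun _ => h2 b
  · simp

/-- The event: some advice and few changes make the algorithm decide the test language. -/
def EvX (M : Alg) (q n N K s : ℕ) (a : Fin N → Bool) : Prop :=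
  ∃ w : List Bool, w.length ≤ K ∧ ∃ b : Fin N → Bool, (df a b).card ≤ s ∧ EvW M q n N w b

open Classical in
theorem evX_bound (M : Alg) (q n N K s : ℕ) (hN : 2 ^ (3 * mm n + 1) ≤ N) :
    Ex unif (fun a : Fin N → Bool => if EvX M q n N K s a then (1 : ℝ) else 0) ≤
      2 ^ (K + 1) * ((2 ^ n * 2 ^ q + 1) ^ s * ((2 ^ n + 1) ^ s *
        ((11 / 12) ^ (2 ^ n - s) + 2 ^ 2 ^ n * (2 ^ n * (2 ^ q + 1)) / 2 ^ mm n))) := by
  have hsub : (univ.filter fun a : Fin N → Bool => EvX M q n N K s a) ⊆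
      (Finset.range (2 ^ (K + 1))).biUnion fun j => univ.filter fun a : Fin N → Bool =>
        ∃ b : Fin N → Bool, (df a b).card ≤ s ∧ EvW M q n N (str j) b := by
    intro a ha
    obtain ⟨_, w, hw, h⟩ := Finset.mem_filter.1 ha
    rw [Finset.mem_biUnion]
    refine ⟨idx w, ?_, ?_⟩
    · rw [Finset.mem_range]
      have h4 := idx_lt w
      have h5 : 2 ^ (w.length + 1) ≤ 2 ^ (K + 1) := Nat.pow_le_pow_right (by norm_num) (by omega)
      omega
    · rw [Finset.mem_filter, str_idx]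
      exact ⟨mem_univ _, h⟩
  rw [Ex_ind]
  have h6 : ((univ.filter fun a : Fin N → Bool => EvX M q n N K s a).card : ℝ) ≤
      ∑ j ∈ Finset.range (2 ^ (K + 1)), ((univ.filter fun a : Fin N → Bool =>
        ∃ b : Fin N → Bool, (df a b).card ≤ s ∧ EvW M q n N (str j) b).card : ℝ) := by
    have h7 := (Finset.card_le_card hsub).trans Finset.card_biUnion_le
    exact_mod_cast h7
  calc ((univ.filter fun a : Fin N → Bool => EvX M q n N K s a).card : ℝ) *
        (1 / 2) ^ Fintype.card (Fin N)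
      ≤ (∑ j ∈ Finset.range (2 ^ (K + 1)), ((univ.filter fun a : Fin N → Bool =>
        ∃ b : Fin N → Bool, (df a b).card ≤ s ∧ EvW M q n N (str j) b).card : ℝ)) *
        (1 / 2) ^ Fintype.card (Fin N) := mul_le_mul_of_nonneg_right h6 (by positivity)
    _ ≤ ∑ j ∈ Finset.range (2 ^ (K + 1)),
        (2 ^ n * 2 ^ q + 1) ^ s * ((2 ^ n + 1) ^ s *
        ((11 / 12) ^ (2 ^ n - s) + 2 ^ 2 ^ n * (2 ^ n * (2 ^ q + 1)) / 2 ^ mm n)) := by
        rw [Finset.sum_mul]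
        refine Finset.sum_le_sum fun j _ => ?_
        have h8 := evW_bound M q n N s (str j) hN
        rw [Ex_ind] at h8
        exact h8
    _ = _ := by
        rw [Finset.sum_const, Finset.card_range, nsmul_eq_mul]
        push_cast
        ring

/-- the bound is small -/
theorem small_bound' (q : Polynomial ℕ) {δ : ℝ} (hδ : 0 < δ) : ∃ n₀ : ℕ, ∀ n ≥ n₀, ∀ s : ℕ,
    s ≤ 2 ^ (n / 4) → ∀ K : ℕ, 128 * K ≤ 2 ^ n →
    (2 : ℝ) ^ (K + 1) * ((2 ^ n * 2 ^ q.eval n + 1) ^ s * ((2 ^ n + 1) ^ s *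
        ((11 / 12) ^ (2 ^ n - s) + 2 ^ 2 ^ n * (2 ^ n * (2 ^ q.eval n + 1)) / 2 ^ mm n))) ≤ δ := by
  obtain ⟨k₀, hk₀⟩ := Filter.eventually_atTop.1 (E0.poly_le
    ((q + Polynomial.C 2 * Polynomial.X + Polynomial.C 3).comp
      (Polynomial.C 4 * Polynomial.X + Polynomial.C 4)) 1)
  obtain ⟨k₁, hk₁⟩ := exists_pow_lt_of_lt_one hδ (by norm_num : (1 / 2 : ℝ) < 1)
  refine ⟨4 * k₀ + k₁ + 16, fun n hn s hs K hK => ?_⟩
  obtain ⟨u, hu⟩ : ∃ u, u = n / 4 := ⟨_, rfl⟩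
  rw [← hu] at hs
  have hu1 : k₀ ≤ u := by omega
  have hu2 : 4 * u ≤ n := by omega
  have hu3 : n ≤ 4 * u + 4 := by omega
  have hP : q.eval n + 2 * n + 3 ≤ 2 ^ u := by
    have h1 := hk₀ u hu1
    rw [one_mul, Polynomial.eval_comp] at h1
    have h2 := eval_mono (q + Polynomial.C 2 * Polynomial.X + Polynomial.C 3) hu3
    simp only [Polynomial.eval_add, Polynomial.eval_mul, Polynomial.eval_C,
      Polynomial.eval_X] at h1 h2
    omega
  have e0 : (2 : ℕ) ^ n = 2 ^ (n - 5) * 32 := by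
    rw [show (32 : ℕ) = 2 ^ 5 by norm_num, ← pow_add]
    congr 1
    omega
  have e1 : 2 ^ (2 * u) * 2 ≤ 2 ^ (n - 5) := by
    rw [← pow_succ]
    exact Nat.pow_le_pow_right (by norm_num) (by omega)
  have e2 : 2 ^ u ≤ 2 ^ (2 * u) := Nat.pow_le_pow_right (by norm_num) (by omega)
  have e3 : 1 ≤ 2 ^ u := Nat.one_le_two_pow
  have e4 : k₁ + 4 ≤ n - 7 := by omega
  have e5 : 2 ^ (n - 5) = 4 * 2 ^ (n - 7) := by
    rw [show (4 : ℕ) = 2 ^ 2 by norm_num, ← pow_add]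
    congr 1
    omega
  have e6 : n - 7 < 2 ^ (n - 7) := Nat.lt_two_pow_self
  obtain ⟨T, hT⟩ : ∃ T, T = 2 ^ (n - 5) := ⟨_, rfl⟩
  rw [← hT] at e0 e1 e5
  obtain ⟨U, hU⟩ : ∃ U, U = 2 ^ (2 * u) := ⟨_, rfl⟩
  rw [← hU] at e1 e2
  -- the first two factors
  have f1 : ((2 : ℝ) ^ n * 2 ^ q.eval n + 1) ^ s * (2 ^ n + 1) ^ s ≤ 2 ^ U := by
    have g1 : (2 : ℝ) ^ n * 2 ^ q.eval n + 1 ≤ 2 ^ (n + q.eval n + 1) := by
      rw [pow_succ, pow_add]
      have h1 : (1 : ℝ) ≤ 2 ^ n * 2 ^ q.eval n := by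
        have ha : (1 : ℝ) ≤ 2 ^ n := one_le_pow₀ (by norm_num)
        have hb : (1 : ℝ) ≤ 2 ^ q.eval n := one_le_pow₀ (by norm_num)
        nlinarith
      linarith
    have g2 : (2 : ℝ) ^ n + 1 ≤ 2 ^ (n + 1) := by
      have : (1 : ℝ) ≤ 2 ^ n := one_le_pow₀ (by norm_num)
      rw [pow_succ]
      linarith
    calc ((2 : ℝ) ^ n * 2 ^ q.eval n + 1) ^ s * (2 ^ n + 1) ^ s
        ≤ (2 ^ (n + q.eval n + 1)) ^ s * (2 ^ (n + 1)) ^ s := by gcongr
      _ = 2 ^ ((q.eval n + 2 * n + 2) * s) := by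
          rw [← pow_mul, ← pow_mul, ← pow_add]
          congr 1
          ring
      _ ≤ 2 ^ U := by
          refine pow_le_pow_right₀ (by norm_num) ?_
          have h1 : (q.eval n + 2 * n + 2) * s ≤ 2 ^ u * 2 ^ u :=
            Nat.mul_le_mul (by omega) hs
          rw [hU, show 2 * u = u + u by ring, pow_add]
          exact h1
  -- the third factor
  have f2 : ((11 : ℝ) / 12) ^ (2 ^ n - s) ≤ (1 / 2) ^ (2 * T) := by
    have h1 : 8 * (2 * T) ≤ 2 ^ n - s := by omega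
    calc ((11 : ℝ) / 12) ^ (2 ^ n - s) ≤ (11 / 12) ^ (8 * (2 * T)) :=
          pow_le_pow_of_le_one (by norm_num) (by norm_num) h1
      _ = ((11 / 12) ^ 8) ^ (2 * T) := by rw [pow_mul]
      _ ≤ (1 / 2) ^ (2 * T) := pow_le_pow_left₀ (by norm_num) (by norm_num) _
  have f3 : (2 : ℝ) ^ 2 ^ n * (2 ^ n * (2 ^ q.eval n + 1)) / 2 ^ mm n ≤ (1 / 2) ^ (2 * T) := by
    rw [div_le_iff₀ (by positivity)]
    have h7 : (2 : ℝ) ^ q.eval n + 1 ≤ 2 ^ (q.eval n + 1) := by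
      have : (1 : ℝ) ≤ 2 ^ q.eval n := one_le_pow₀ (by norm_num)
      rw [pow_succ]; linarith
    have h8 : (2 : ℝ) ^ 2 ^ n * (2 ^ n * (2 ^ q.eval n + 1)) ≤
        2 ^ (2 ^ n + (n + (q.eval n + 1))) := by
      rw [pow_add, pow_add 2 n]
      gcongr
    have h10 := E0.mm_ge n
    have h11 : 2 ^ (n + 3) = 8 * 2 ^ n := by rw [pow_add]; norm_num; ring
    have h9 : ((1 : ℝ) / 2) ^ (2 * T) * 2 ^ mm n = 2 ^ (mm n - 2 * T) := by
      have hmm : 2 * T ≤ mm n := by omega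
      rw [pow_sub₀ _ (by norm_num) hmm, one_div, inv_pow]
      ring
    rw [h9]
    refine h8.trans (pow_le_pow_right₀ (by norm_num) ?_)
    omega
  have f4 : (0 : ℝ) ≤ (11 / 12) ^ (2 ^ n - s) +
      2 ^ 2 ^ n * (2 ^ n * (2 ^ q.eval n + 1)) / 2 ^ mm n := by positivity
  have f5 : ((2 : ℝ) ^ n * 2 ^ q.eval n + 1) ^ s * ((2 ^ n + 1) ^ s *
        ((11 / 12) ^ (2 ^ n - s) + 2 ^ 2 ^ n * (2 ^ n * (2 ^ q.eval n + 1)) / 2 ^ mm n)) ≤
        (1 / 2) ^ T := by
    calc ((2 : ℝ) ^ n * 2 ^ q.eval n + 1) ^ s * ((2 ^ n + 1) ^ s *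
          ((11 / 12) ^ (2 ^ n - s) + 2 ^ 2 ^ n * (2 ^ n * (2 ^ q.eval n + 1)) / 2 ^ mm n))
        = (((2 : ℝ) ^ n * 2 ^ q.eval n + 1) ^ s * (2 ^ n + 1) ^ s) *
          ((11 / 12) ^ (2 ^ n - s) + 2 ^ 2 ^ n * (2 ^ n * (2 ^ q.eval n + 1)) / 2 ^ mm n) := by
          ring
      _ ≤ 2 ^ U * ((1 / 2) ^ (2 * T) + (1 / 2) ^ (2 * T)) := by
          refine mul_le_mul f1 (add_le_add f2 f3) f4 (by positivity)
      _ = 2 ^ (U + 1) * (1 / 2) ^ (2 * T) := by rw [pow_succ]; ring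
      _ ≤ 2 ^ T * (1 / 2) ^ (2 * T) := by
          refine mul_le_mul_of_nonneg_right (pow_le_pow_right₀ (by norm_num) ?_) (by positivity)
          omega
      _ = (1 / 2) ^ T := by
          rw [two_mul, pow_add, ← mul_assoc, ← mul_pow]
          norm_num
  have hKT : K + 1 + k₁ ≤ T := by omega
  calc (2 : ℝ) ^ (K + 1) * _ ≤ 2 ^ (K + 1) * (1 / 2) ^ T :=
        mul_le_mul_of_nonneg_left f5 (by positivity)
    _ ≤ 2 ^ (K + 1) * (1 / 2) ^ (K + 1 + k₁) :=
        mul_le_mul_of_nonneg_left (pow_le_pow_of_le_one (by norm_num) (by norm_num) hKT)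
          (by positivity)
    _ = (1 / 2) ^ k₁ := by
        rw [pow_add (1 / 2 : ℝ), ← mul_assoc, ← mul_pow]
        norm_num
    _ ≤ δ := hk₁.le

/-- the exceptional oracles for one algorithm -/
def SW (θ : Alg × Lin × ℕ) : Set Oracle :=
  {A | ∀ n ≥ θ.2.2, ∃ w : List Bool, 128 * w.length ≤ 2 ^ n ∧ ∀ x : List Bool, x.length = n →
    (θ.1.run A (pairBits x w) (2 ^ (θ.2.1 : Polynomial ℕ).eval n) [] = some [true] ↔ x ∈ hit2 A)}

/-- locality -/
theorem local_SW (M : Alg) {q : Polynomial ℕ} (hq : q ∈ Lin) :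
    ∃ r ∈ Lin, (∀ n, 3 * mm n + 1 ≤ 2 ^ r.eval n) ∧ ∀ (A : Oracle) (n N : ℕ) (w : List Bool),
      w.length ≤ 2 ^ n → 2 ^ 2 ^ r.eval n ≤ N →
      (∀ x : List Bool, x.length = n →
        (M.run A (pairBits x w) (2 ^ q.eval n) [] = some [true] ↔ x ∈ hit2 A)) →
      EvW M (q.eval n) n N w (pre N A) := by
  obtain ⟨b, hb⟩ := run_local M
  obtain ⟨r, hr, h⟩ := F1.exists_exponent good_Lin
    (b.comp (Polynomial.C 2 * Polynomial.X + 1)) (good_Lin.add q hq q4 (good_Lin.lin 4))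
  refine ⟨r, hr, fun n => by have := h n; omega, fun A n N w hw hN hA i hi => ?_⟩
  have hn := h n
  have hlen := length_bitsOf n i
  have h1 := F1.hit_orc (A := A) hN (by omega) hlen
  have hrun : M.run (orc N (pre N A)) (pairBits (bitsOf n i) w)
      (2 ^ q.eval n) [] = M.run A (pairBits (bitsOf n i) w) (2 ^ q.eval n) [] := by
    obtain ⟨Q, _, hQl, hQ⟩ := hb A (pairBits (bitsOf n i) w) (2 ^ q.eval n)
    apply hQ
    intro y hy
    have h3 := hQl y hy
    have h4 : b.eval ((pairBits (bitsOf n i) w).length + 2 ^ q.eval n) ≤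
        (b.comp (Polynomial.C 2 * Polynomial.X + 1)).eval (n + 2 ^ (q + q4).eval n) := by
      rw [Polynomial.eval_comp]
      apply eval_mono
      simp only [Polynomial.eval_add, Polynomial.eval_mul, Polynomial.eval_C, Polynomial.eval_X,
        Polynomial.eval_one, F1.eval_q4]
      rw [Pool.Agent.H620R2.Gauge.length_pairBits, length_bitsOf]
      have e1 : 2 ^ q.eval n ≤ 2 ^ (q.eval n + 4 * (n + 1)) :=
        Nat.pow_le_pow_right (by norm_num) (by omega)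
      have e2 : 2 ^ n ≤ 2 ^ (q.eval n + 4 * (n + 1)) :=
        Nat.pow_le_pow_right (by norm_num) (by omega)
      omega
    exact F1.orc_of_len hN (by omega)
  rw [hrun, ← h1, hA _ hlen]
  rfl

theorem ae_SW {g : ℕ → ℝ}
    (hg : ∀ ε : ℝ, 0 < ε → ∃ᶠ n : ℕ in Filter.atTop, g n ≤ (n : ℝ) ^ ε)
    (θ : Alg × Lin × ℕ) :
    ∀ᵐ O ∂randomOracle, ∀ A, Close g O A → A ∉ SW θ := by
  classical
  obtain ⟨M, ⟨q, hq⟩, n₂⟩ := θ
  refine ae_far_of fun n₁ => measure_of_null ?_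
  intro δ hδ
  obtain ⟨r, ⟨c, hc⟩, hr1, hr2⟩ := local_SW M hq
  have hre : ∀ n, r.eval n = c * (n + 1) := by
    intro n
    rw [hc]
    simp
  have hc1 : 1 ≤ c := by
    by_contra h
    have h1 := hr1 0
    rw [hre] at h1
    have : c = 0 := by omega
    subst this
    simp at h1
    unfold mm at h1
    omega
  obtain ⟨n₀, hn₀⟩ := small_bound' q hδ
  -- the length
  have hcR : (0 : ℝ) < c := by exact_mod_cast hc1
  obtain ⟨m, hgm, hm⟩ := ((hg (1 / (8 * c)) (by positivity)).and_eventually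
    (Filter.eventually_ge_atTop (n₁ + 2 ^ (c * (n₀ + n₂ + 17))))).exists
  obtain ⟨n, hn⟩ : ∃ n, n = Nat.log 2 m / c - 1 := ⟨_, rfl⟩
  have hm0 : m ≠ 0 := by
    have : 0 < 2 ^ (c * (n₀ + n₂ + 17)) := by positivity
    omega
  have hlog : c * (n₀ + n₂ + 17) ≤ Nat.log 2 m := by
    apply Nat.le_log_of_pow_le (by norm_num)
    omega
  have hdiv : n₀ + n₂ + 17 ≤ Nat.log 2 m / c := by
    rw [Nat.le_div_iff_mul_le hc1, mul_comm]
    exact hlog
  have hn1 : n + 1 = Nat.log 2 m / c := by omega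
  have hle : 2 ^ (c * (n + 1)) ≤ m := by
    have h1 : c * (n + 1) ≤ Nat.log 2 m := by
      rw [hn1]
      exact Nat.mul_div_le _ _
    exact (Nat.pow_le_pow_right (by norm_num) h1).trans (Nat.pow_log_le_self 2 hm0)
  have hlt : m < 2 ^ (c * (n + 2)) := by
    have h1 : Nat.log 2 m < c * (n + 2) := by
      have h2 := Nat.lt_mul_div_succ (Nat.log 2 m) hc1
      rw [show n + 2 = Nat.log 2 m / c + 1 by omega]
      exact h2
    exact lt_of_lt_of_le (Nat.lt_pow_succ_log_self (by norm_num) m)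
      (Nat.pow_le_pow_right (by norm_num) h1)
  -- the number of changes
  obtain ⟨s, hs⟩ : ∃ s, s = ⌊g m⌋₊ := ⟨_, rfl⟩
  have hs4 : s ≤ 2 ^ (n / 4) := by
    have h1 : (s : ℝ) ≤ (2 : ℝ) ^ (n / 4 : ℕ) := by
      have h2 : (s : ℝ) ≤ (m : ℝ) ^ (1 / (8 * c : ℝ)) := by
        rw [hs]
        rcases le_total 0 (g m) with h | h
        · exact (Nat.floor_le h).trans hgm
        · rw [Nat.floor_of_nonpos h]
          push_cast
          positivity
      have h3 : (m : ℝ) ^ (1 / (8 * c : ℝ)) ≤ ((2 : ℝ) ^ (c * (n + 2))) ^ (1 / (8 * c : ℝ)) := by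
        apply Real.rpow_le_rpow (by positivity) _ (by positivity)
        exact_mod_cast hlt.le
      have h4 : ((2 : ℝ) ^ (c * (n + 2))) ^ (1 / (8 * c : ℝ)) = (2 : ℝ) ^ (((n : ℝ) + 2) / 8) := by
        rw [← Real.rpow_natCast, ← Real.rpow_mul (by norm_num)]
        congr 1
        push_cast
        field_simp
      have h5 : (2 : ℝ) ^ (((n : ℝ) + 2) / 8) ≤ (2 : ℝ) ^ ((n / 4 : ℕ) : ℝ) := by
        apply Real.rpow_le_rpow_of_exponent_le (by norm_num)
        have h6 : n + 2 ≤ 8 * (n / 4) := by omega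
        have h7 : ((n : ℝ) + 2) ≤ 8 * ((n / 4 : ℕ) : ℝ) := by exact_mod_cast h6
        linarith
      rw [Real.rpow_natCast] at h5
      linarith
    exact_mod_cast h1
  obtain ⟨K, hK⟩ : ∃ K, K = 2 ^ n / 128 := ⟨_, rfl⟩
  have hK1 : 128 * K ≤ 2 ^ n := by
    rw [hK]
    exact Nat.mul_div_le _ _
  have t3 := hn₀ n (by omega) s hs4 K hK1
  obtain ⟨N, hN⟩ : ∃ N, N = 2 ^ 2 ^ r.eval n := ⟨_, rfl⟩
  have hN1 : 2 ^ (3 * mm n + 1) ≤ N := by
    rw [hN]
    exact Nat.pow_le_pow_right (by norm_num) (hr1 n)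
  refine cover_of_event (EvX M (q.eval n) n N K s) _ ?_ (fun _ => 0) δ ?_
  · rintro O ⟨A, hA, hd⟩
    obtain ⟨w, hw, hwr⟩ := hA n (by show n₂ ≤ n; omega)
    refine ⟨w, ?_, pre N A, ?_, ?_⟩
    · rw [hK, Nat.le_div_iff_mul_le (by norm_num)]
      omega
    · refine (df_pre O A N).trans ?_
      have h1 : Nat.log 2 N = 2 ^ r.eval n := by
        rw [hN]
        exact Nat.log_pow (by norm_num) _
      rw [h1, hre, hs]
      refine (dist_mono O A hle).trans (Nat.le_floor ?_)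
      exact hd m (le_trans (Nat.le_add_right _ _) hm)
    · exact hr2 A n N w (by omega) hN.ge hwr
  · rw [Real.rpow_zero, mul_one]
    exact (evX_bound M (q.eval n) n N K s hN1).trans t3

/-- Near almost every oracle the test language, which is in `NE`, is not in `E` with advice of
length `2 ^ n / 128`. -/
theorem ae_adv {g : ℕ → ℝ}
    (hg : ∀ ε : ℝ, 0 < ε → ∃ᶠ n : ℕ in Filter.atTop, g n ≤ (n : ℝ) ^ ε) :
    ∀ᵐ O ∂randomOracle, ∀ A, Close g O A → ∀ M : Alg, ∀ q ∈ Lin, ∀ h : ℕ → List Bool,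
      (∀ᶠ n : ℕ in Filter.atTop, 128 * (h n).length ≤ 2 ^ n) →
      ∃ᶠ n : ℕ in Filter.atTop, ∃ x : List Bool, x.length = n ∧
        ¬ (M.run A (pairBits x (h n)) (2 ^ q.eval n) [] = some [true] ↔ x ∈ hit2 A) := by
  have hc : Countable (Polynomial ℕ) := N1.countable_poly
  have hcE : Countable Lin := inferInstance
  filter_upwards [ae_all_iff.2 fun θ : Alg × Lin × ℕ => ae_SW hg θ] with O hO
  intro A hA M q hq h hh
  by_contra hne
  rw [Filter.not_frequently] at hne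
  obtain ⟨n₀, hn₀⟩ := Filter.eventually_atTop.1 (hne.and hh)
  refine hO (M, ⟨q, hq⟩, n₀) A hA ?_
  intro n hn
  obtain ⟨h1, h2⟩ := hn₀ n hn
  refine ⟨h n, h2, fun x hx => ?_⟩
  by_contra h3
  exact h1 ⟨x, hx, h3⟩

end Pool.Agent.TH771.EA
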